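import Pool.Agent.H95.ND.Targets

/-!
# Interior lower norms
-/

set_option autoImplicit false

open MeasureTheory ProbabilityTheory
open scoped ENNReal

namespace Pool.Agent.H14.PD

open Pool.Agent.H99.NS Pool.Agent.H22.LPP Pool.Agent.H95.INS Pool.Agent.H76.ND Pool.Agent.H95.ND
open Pool.Agent.H97.NF (PEnv eA eB PN)

lemma rpow64 (i : ℕ) : ((64 : ℝ) ^ i) ^ ((2 : ℝ) / 3) = 16 ^ i := by
  rw [← Real.rpow_natCast, ← Real.rpow_mul (by norm_num), mul_comm, Real.rpow_mul (by norm_num),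
    Real.rpow_natCast]
  congr 1
  rw [show (64 : ℝ) = 4 ^ (3 : ℝ) by norm_num, ← Real.rpow_mul (by norm_num)]
  norm_num

lemma rpow64' (i : ℕ) : ((64 : ℝ) ^ i) ^ ((1 : ℝ) / 3) = 4 ^ i := by
  rw [← Real.rpow_natCast, ← Real.rpow_mul (by norm_num), mul_comm, Real.rpow_mul (by norm_num),
    Real.rpow_natCast]
  congr 1
  rw [show (64 : ℝ) = 4 ^ (3 : ℝ) by norm_num, ← Real.rpow_mul (by norm_num)]
  norm_num

lemma L23 {i L : ℕ} (h : 64 ^ i ≤ L) : (16 : ℝ) ^ i ≤ (L : ℝ) ^ ((2 : ℝ) / 3) := by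
  rw [← rpow64]
  apply Real.rpow_le_rpow (by positivity) _ (by norm_num)
  exact_mod_cast h

lemma L13 {i L : ℕ} (h : L ≤ 32 * 64 ^ i) : (L : ℝ) ^ ((1 : ℝ) / 3) ≤ 4 * 4 ^ i := by
  have h1 : (L : ℝ) ≤ 32 * 64 ^ i := by exact_mod_cast h
  calc (L : ℝ) ^ ((1 : ℝ) / 3) ≤ ((64 : ℝ) * 64 ^ i) ^ ((1 : ℝ) / 3) := by
        apply Real.rpow_le_rpow (by positivity) _ (by norm_num)
        have : (0 : ℝ) ≤ 64 ^ i := by positivity
        linarith
    _ = ((64 : ℝ) ^ (i + 1)) ^ ((1 : ℝ) / 3) := by rw [pow_succ' (64 : ℝ)]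
    _ = 4 * 4 ^ i := by rw [rpow64', pow_succ']

lemma str_pos {K0 : ℝ} (h : 1 ≤ K0) (d : ℕ) : 1 ≤ str K0 d := by
  unfold str
  have : (1 : ℝ) ≤ (101 / 100) ^ d := one_le_pow₀ (by norm_num)
  nlinarith

/-- comparison of the allowance with the window number -/
lemma al_window (K0 : ℝ) (hK0 : 1 ≤ K0) (j i L : ℕ) (hL : L ≤ 32 * 64 ^ i) (D : ℝ) (p : ℕ)
    (hD0 : 0 ≤ D) (hD : ((p : ℝ) - 3) * 16 ^ i ≤ D) :
    str K0 (ds j i) * (1 + p / 16 ^ (max j i - i)) / 16 * (L : ℝ) ^ ((1 : ℝ) / 3) ≤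
      al K0 j i D := by
  have h1 := L13 hL
  have hs := str_pos hK0 (ds j i)
  have hM : (16 : ℝ) ^ max j i = 16 ^ i * 16 ^ (max j i - i) := by
    rw [← pow_add]
    congr 1
    omega
  set M : ℝ := 16 ^ (max j i - i) with hMd
  have hM1 : 1 ≤ M := one_le_pow₀ (by norm_num)
  have hW1 : (1 : ℝ) ≤ 16 ^ i := one_le_pow₀ (by norm_num)
  have hp : (0 : ℝ) ≤ p := Nat.cast_nonneg p
  have key : (1 + (p : ℝ) / M) / 4 ≤ 1 + D / 16 ^ max j i := by
    rw [hM]
    have h2 : ((p : ℝ) - 3) / M ≤ D / (16 ^ i * M) := by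
      rw [div_le_div_iff₀ (by positivity) (by positivity)]
      nlinarith
    have h3 : 0 ≤ D / (16 ^ i * M) := by positivity
    have h4 : ((p : ℝ) - 3) / M = (p : ℝ) / M - 3 / M := sub_div _ _ _
    by_cases h5 : (p : ℝ) ≤ 3
    · have h6 : (p : ℝ) / M ≤ 3 := by
        rw [div_le_iff₀ (by positivity)]
        nlinarith
      linarith
    · push Not at h5
      have h7 : (4 : ℝ) ≤ p := by
        have : 3 < p := by exact_mod_cast h5
        exact_mod_cast this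
      have h8 : 3 / M ≤ 3 / 4 * ((p : ℝ) / M) := by
        rw [← mul_div_assoc]
        apply div_le_div_of_nonneg_right _ (by positivity)
        linarith
      linarith
  unfold al
  have e1 : K0 * (101 / 100) ^ ds j i = str K0 (ds j i) := rfl
  rw [e1]
  have h4i : (0 : ℝ) < 4 ^ i := by positivity
  calc str K0 (ds j i) * (1 + p / M) / 16 * (L : ℝ) ^ ((1 : ℝ) / 3)
      ≤ str K0 (ds j i) * (1 + p / M) / 16 * (4 * 4 ^ i) := by
        apply mul_le_mul_of_nonneg_left h1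
        positivity
    _ = str K0 (ds j i) * 4 ^ i * ((1 + p / M) / 4) := by ring
    _ ≤ str K0 (ds j i) * 4 ^ i * (1 + D / 16 ^ max j i) := by
        apply mul_le_mul_of_nonneg_left key
        positivity

/-- window number of a position -/
lemma window (W x : ℤ) (hW : 1 ≤ W) :
    |x - x / W * W| < W ∧ ((((x / W).natAbs : ℕ) : ℤ) - 1) * W ≤ |x| ∧
      (((x / W).natAbs : ℕ) : ℤ) ≤ |x| + 1 := by
  have h1 : x / W * W = x - x % W := by
    have := Int.mul_ediv_add_emod x W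
    linarith [mul_comm W (x / W)]
  have h2 := Int.emod_nonneg x (show W ≠ 0 by omega)
  have h3 := Int.emod_lt_of_pos x (show 0 < W by omega)
  rw [Int.natCast_natAbs]
  refine ⟨?_, ?_, ?_⟩
  · rw [h1, abs_lt]
    constructor <;> omega
  · rcases le_total 0 (x / W) with h4 | h4
    · rw [abs_of_nonneg h4]
      have : 0 ≤ x := by nlinarith
      rw [abs_of_nonneg this]
      linarith
    · rw [abs_of_nonpos h4]
      have := neg_abs_le x
      have := neg_le_abs x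
      linarith
  · rcases le_total 0 (x / W) with h4 | h4
    · rw [abs_of_nonneg h4]
      have : 0 ≤ x := by nlinarith
      rw [abs_of_nonneg this]
      nlinarith
    · rw [abs_of_nonpos h4]
      have h5 := neg_le_abs x
      rcases eq_or_lt_of_le h4 with h6 | h6
      · rw [h6]
        have := abs_nonneg x
        omega
      · have h7 : (-(x / W) - 1) * 1 ≤ (-(x / W) - 1) * W :=
          mul_le_mul_of_nonneg_left hW (by omega)
        have h8 : (-(x / W) - 1) * W = -(x / W * W) - W := by ring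
        omega

/-- summation of the tails of the windows -/
lemma sum_tails {C c s C' c' : ℝ} (hC : 0 ≤ C)
    (hW : ∀ (K0 : ℝ) (d n N : ℕ), 1 ≤ K0 → d ≤ n →
      ∑ m ∈ Finset.range N,
        (8 * (m : ℝ) + 1) * Real.exp (-(c / 16 ^ s * (str K0 n * (1 + m / 16 ^ d)) ^ s)) ≤
      C' * Real.exp (-(c' * str K0 n ^ s))) (K0 : ℝ) (hK0 : 1 ≤ K0) (d n N : ℕ) (hd : d ≤ n) :
    ∑ m ∈ Finset.range N,
      ENNReal.ofReal (8 * (m : ℝ) + 1) * tl C c s (str K0 n * (1 + m / 16 ^ d) / 16) ≤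
    tl (C * C') c' s (str K0 n) := by
  have hs := str_pos hK0 n
  unfold tl
  have e : ∀ m : ℕ, c * (str K0 n * (1 + (m : ℝ) / 16 ^ d) / 16) ^ s =
      c / 16 ^ s * (str K0 n * (1 + (m : ℝ) / 16 ^ d)) ^ s := by
    intro m
    rw [Real.div_rpow (by positivity) (by norm_num)]
    ring
  simp only [e]
  have e2 : ∀ m : ℕ, ENNReal.ofReal (8 * (m : ℝ) + 1) *
      ENNReal.ofReal (C * Real.exp (-(c / 16 ^ s * (str K0 n * (1 + (m : ℝ) / 16 ^ d)) ^ s))) =
      ENNReal.ofReal ((8 * (m : ℝ) + 1) *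
        (C * Real.exp (-(c / 16 ^ s * (str K0 n * (1 + (m : ℝ) / 16 ^ d)) ^ s)))) := fun m =>
    (ENNReal.ofReal_mul (by positivity)).symm
  rw [Finset.sum_congr rfl fun m _ => e2 m]
  rw [← ENNReal.ofReal_sum_of_nonneg (fun m _ => by positivity)]
  apply ENNReal.ofReal_le_ofReal
  calc ∑ m ∈ Finset.range N, (8 * (m : ℝ) + 1) *
        (C * Real.exp (-(c / 16 ^ s * (str K0 n * (1 + (m : ℝ) / 16 ^ d)) ^ s)))
      = C * ∑ m ∈ Finset.range N, (8 * (m : ℝ) + 1) *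
        Real.exp (-(c / 16 ^ s * (str K0 n * (1 + (m : ℝ) / 16 ^ d)) ^ s)) := by
        rw [Finset.mul_sum]
        apply Finset.sum_congr rfl
        intro m _
        ring
    _ ≤ C * (C' * Real.exp (-(c' * str K0 n ^ s))) :=
        mul_le_mul_of_nonneg_left (hW K0 d n N hK0 hd) hC
    _ = _ := by ring

theorem pf_INT (h : T_WSM) : T_INT := by
  intro C c s hC hc hs
  obtain ⟨C', c', hC', hc', hW⟩ := h (c / 16 ^ s) s (by positivity) hs
  refine ⟨2 * (C * C'), c', by positivity, hc', ?_⟩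
  intro q φ K0 V Bd j i L s₀ hK0 hL1 hL2 hV hlow
  set n := ds j i with hn
  set d := max j i - i with hd
  have hdn : d ≤ n := by rw [hd, hn]; unfold ds; omega
  set W : ℤ := 16 ^ i with hWd
  have hW1 : 1 ≤ W := one_le_pow₀ (by norm_num)
  have hWr : ((W : ℤ) : ℝ) = 16 ^ i := by rw [hWd]; push_cast; rfl
  set N := ⌈V⌉₊ + 2 with hN
  let Ev : ℤ → ℝ → Set Env := fun p Y => {ω | ∃ u v : Site, s₀ ≤ u.1 ∧ u.1 < v.1 ∧
      v.1 ≤ s₀ + L ∧ Reach u v ∧ |dx u v| ≤ 2 ∧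
      (|dx (s₀, p * W) u| ≤ (L : ℝ) ^ ((2 : ℝ) / 3) ∨
        |dx (s₀, p * W) v| ≤ (L : ℝ) ^ ((2 : ℝ) / 3)) ∧
      T (φ ω) u v ≤ mu q * dt u v - Y * (L : ℝ) ^ ((1 : ℝ) / 3)}
  let Y : ℕ → ℝ := fun m => str K0 n * (1 + m / 16 ^ d) / 16
  have hs1 := str_pos hK0 n
  have hY : ∀ m, 0 ≤ Y m := fun m => by
    show 0 ≤ str K0 n * (1 + (m : ℝ) / 16 ^ d) / 16
    positivity
  have hEv : ∀ (p : ℤ) (m : ℕ), |((p * W : ℤ) : ℝ)| ≤ Bd → PE q (Ev p (Y m)) ≤ tl C c s (Y m) :=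
    fun p m hp => hlow (s₀, p * W) (Y m) hp (hY m)
  -- the inclusion
  have hsub : {ω | ∃ u v : Site, s₀ ≤ u.1 ∧ u.1 < v.1 ∧ v.1 ≤ s₀ + L ∧ Reach u v ∧
      |dx u v| ≤ 2 ∧ |(u.2 : ℝ)| ≤ V ∧ |(v.2 : ℝ)| ≤ V ∧
      T (φ ω) u v < mu q * dt u v - al K0 j i (min |(u.2 : ℝ)| |(v.2 : ℝ)|)} ⊆
      ⋃ m ∈ Finset.range N, ⋃ p ∈ ({(m : ℤ), -(m : ℤ)} : Finset ℤ),
        {ω | ω ∈ Ev p (Y m) ∧ |((p * W : ℤ) : ℝ)| ≤ Bd} := by
    rintro ω ⟨u, v, h1, h2, h3, h4, h5, h6, h7, h8⟩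
    obtain ⟨w1, w2, w3⟩ := window W u.2 hW1
    set p := u.2 / W with hp
    set m := p.natAbs with hm
    have hmV : (m : ℝ) ≤ V + 1 := by
      have : ((m : ℤ) : ℝ) ≤ ((|u.2| + 1 : ℤ) : ℝ) := Int.cast_le.2 w3
      push_cast at this
      linarith
    have hmN : m < N := by
      have : (m : ℝ) < (N : ℝ) := by
        rw [hN]
        push_cast
        have := Nat.le_ceil V
        linarith
      exact_mod_cast this
    have hpm : p ∈ ({(m : ℤ), -(m : ℤ)} : Finset ℤ) := by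
      rw [Finset.mem_insert, Finset.mem_singleton]
      exact Int.natAbs_eq p
    have w1' : |dx (s₀, p * W) u| ≤ 16 ^ i := by
      unfold dx
      rw [← hWr, ← Int.cast_abs]
      exact Int.cast_le.2 w1.le
    simp only [Set.mem_iUnion]
    refine ⟨m, Finset.mem_range.2 hmN, p, hpm, ?_, ?_⟩
    · refine ⟨u, v, h1, h2, h3, h4, h5, Or.inl (w1'.trans (L23 hL1)), ?_⟩
      have hD : ((m : ℝ) - 3) * 16 ^ i ≤ min |(u.2 : ℝ)| |(v.2 : ℝ)| := by
        have g1 : ((m : ℝ) - 1) * 16 ^ i ≤ |(u.2 : ℝ)| := by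
          have : ((((m : ℤ) - 1) * W : ℤ) : ℝ) ≤ ((|u.2| : ℤ) : ℝ) := Int.cast_le.2 w2
          push_cast at this
          rw [hWr] at this
          exact this
        have g2 : |(u.2 : ℝ)| - 2 ≤ |(v.2 : ℝ)| := by
          unfold dx at h5
          push_cast at h5
          have := abs_sub_abs_le_abs_sub (u.2 : ℝ) (v.2 : ℝ)
          rw [abs_sub_comm] at this
          linarith
        have g3 : (1 : ℝ) ≤ 16 ^ i := one_le_pow₀ (by norm_num)
        apply le_min <;> nlinarith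
      have := al_window K0 hK0 j i L hL2 _ m (le_min (abs_nonneg _) (abs_nonneg _)) hD
      show T (φ ω) u v ≤ mu q * dt u v - Y m * (L : ℝ) ^ ((1 : ℝ) / 3)
      have e : Y m * (L : ℝ) ^ ((1 : ℝ) / 3) ≤ al K0 j i (min |(u.2 : ℝ)| |(v.2 : ℝ)|) := this
      linarith
    · have g1 : |((p * W : ℤ) : ℝ)| ≤ |(u.2 : ℝ)| + 16 ^ i := by
        unfold dx at w1'
        push_cast at w1' ⊢
        have := abs_sub_abs_le_abs_sub ((p : ℝ) * W) (u.2 : ℝ)
        rw [abs_sub_comm] at this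
        linarith
      have g3 : (0 : ℝ) ≤ 16 ^ i := by positivity
      linarith
  refine (measure_mono hsub).trans ?_
  have hone : ∀ m : ℕ, ∀ p : ℤ, PE q {ω | ω ∈ Ev p (Y m) ∧ |((p * W : ℤ) : ℝ)| ≤ Bd} ≤
      tl C c s (Y m) := by
    intro m p
    by_cases hp : |((p * W : ℤ) : ℝ)| ≤ Bd
    · exact (measure_mono fun ω hω => hω.1).trans (hEv p m hp)
    · have : {ω | ω ∈ Ev p (Y m) ∧ |((p * W : ℤ) : ℝ)| ≤ Bd} = ∅ := by
        ext ω
        simp only [Set.mem_ofPred_eq, Set.mem_empty_iff_false, iff_false]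
        exact fun h => hp h.2
      rw [this, measure_empty]
      exact zero_le
  calc PE q (⋃ m ∈ Finset.range N, ⋃ p ∈ ({(m : ℤ), -(m : ℤ)} : Finset ℤ),
        {ω | ω ∈ Ev p (Y m) ∧ |((p * W : ℤ) : ℝ)| ≤ Bd})
      ≤ ∑ m ∈ Finset.range N, PE q (⋃ p ∈ ({(m : ℤ), -(m : ℤ)} : Finset ℤ),
        {ω | ω ∈ Ev p (Y m) ∧ |((p * W : ℤ) : ℝ)| ≤ Bd}) := measure_biUnion_finset_le _ _
    _ ≤ ∑ m ∈ Finset.range N, 2 * tl C c s (Y m) := by
        apply Finset.sum_le_sum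
        intro m _
        refine (measure_biUnion_finset_le _ _).trans ?_
        calc ∑ p ∈ ({(m : ℤ), -(m : ℤ)} : Finset ℤ),
              PE q {ω | ω ∈ Ev p (Y m) ∧ |((p * W : ℤ) : ℝ)| ≤ Bd}
            ≤ ∑ _p ∈ ({(m : ℤ), -(m : ℤ)} : Finset ℤ), tl C c s (Y m) :=
              Finset.sum_le_sum fun p _ => hone m p
          _ = (({(m : ℤ), -(m : ℤ)} : Finset ℤ).card : ℝ≥0∞) * tl C c s (Y m) := by
              rw [Finset.sum_const, nsmul_eq_mul]
          _ ≤ 2 * tl C c s (Y m) := by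
              gcongr
              exact_mod_cast Finset.card_le_two
    _ ≤ ∑ m ∈ Finset.range N, 2 * (ENNReal.ofReal (8 * (m : ℝ) + 1) * tl C c s (Y m)) := by
        apply Finset.sum_le_sum
        intro m _
        gcongr
        have h1 : (1 : ℝ≥0∞) ≤ ENNReal.ofReal (8 * (m : ℝ) + 1) := by
          rw [← ENNReal.ofReal_one]
          apply ENNReal.ofReal_le_ofReal
          have : (0 : ℝ) ≤ m := Nat.cast_nonneg m
          linarith
        calc tl C c s (Y m) = 1 * tl C c s (Y m) := (one_mul _).symm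
          _ ≤ _ := by gcongr
    _ = 2 * ∑ m ∈ Finset.range N, ENNReal.ofReal (8 * (m : ℝ) + 1) * tl C c s (Y m) := by
        rw [Finset.mul_sum]
    _ ≤ 2 * tl (C * C') c' s (str K0 n) := by
        gcongr
        exact sum_tails hC.le hW K0 hK0 d n N hdn
    _ = tl (2 * (C * C')) c' s (str K0 n) := by
        unfold tl
        rw [show (2 : ℝ≥0∞) = ENNReal.ofReal 2 by norm_num, ← ENNReal.ofReal_mul (by norm_num)]
        congr 1
        ring

end Pool.Agent.H14.PD
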