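import Pool.Agent.H95.ND.Targets

/-!
# Tails of the norm events and of the violation events
-/

set_option autoImplicit false

open MeasureTheory ProbabilityTheory
open scoped ENNReal

namespace Pool.Agent.H14.PD

open Pool.Agent.H99.NS Pool.Agent.H22.LPP Pool.Agent.H95.INS Pool.Agent.H76.ND Pool.Agent.H95.ND
open Pool.Agent.H97.NF (PEnv eA eB PN)

namespace PNV

/-- comparison of tails -/
lemma tl_mono {C C' c c' s s' Y : ℝ} (hC : C ≤ C') (hC0 : 0 ≤ C) (hc : c' ≤ c) (hc0 : 0 ≤ c')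
    (hs : s' ≤ s) (hY : 1 ≤ Y) : tl C c s Y ≤ tl C' c' s' Y := by
  unfold tl
  apply ENNReal.ofReal_le_ofReal
  have h1 : Y ^ s' ≤ Y ^ s := Real.rpow_le_rpow_of_exponent_le hY hs
  have h2 : 0 ≤ Y ^ s' := Real.rpow_nonneg (by linarith) _
  have h3 : c' * Y ^ s' ≤ c * Y ^ s := mul_le_mul hc h1 h2 (hc0.trans hc)
  apply mul_le_mul hC (Real.exp_le_exp.2 (by linarith)) (Real.exp_pos _).le (hC0.trans hC)

lemma str_one {K0 : ℝ} (h : 1 ≤ K0) (d : ℕ) : 1 ≤ str K0 d := by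
  unfold str
  have : (1 : ℝ) ≤ (101 / 100) ^ d := one_le_pow₀ (by norm_num)
  nlinarith

/-- length of the slabs -/
lemma slab_len (i : ℕ) (hi : 1 ≤ i) : ∃ L : ℕ, 64 ^ i ≤ L ∧ L ≤ 32 * 64 ^ i ∧
    lv i + (L : ℤ) = lv (i + 1) ∧ -lv (i + 1) + (L : ℤ) = -lv i := by
  obtain ⟨n, rfl⟩ : ∃ n, i = n + 1 := ⟨i - 1, by omega⟩
  refine ⟨2016 * 64 ^ n, ?_, ?_, ?_, ?_⟩
  · rw [pow_succ]; omega
  · rw [pow_succ]; omega
  · unfold lv
    push_cast
    rw [pow_succ]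
    ring
  · unfold lv
    push_cast
    rw [pow_succ]
    ring

lemma core_len (a : ℕ) (ha : 1 ≤ a) : -lv a + ((64 ^ a : ℕ) : ℤ) = lv a := by
  obtain ⟨n, rfl⟩ : ∃ n, a = n + 1 := ⟨a - 1, by omega⟩
  unfold lv
  push_cast
  rw [pow_succ]
  ring

lemma al_mono {K0 : ℝ} (h : 0 ≤ K0) (k i : ℕ) {D D' : ℝ} (hD : D ≤ D') :
    al K0 k i D ≤ al K0 k i D' := by
  unfold al
  apply mul_le_mul_of_nonneg_left _ (by positivity)
  gcongr

lemma al_nonneg {K0 : ℝ} (h : 0 ≤ K0) (k i : ℕ) {D : ℝ} (hD : 0 ≤ D) : 0 ≤ al K0 k i D := by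
  unfold al
  positivity

/-- the point next to `x` with the right parity -/
lemma exists_parity (n x : ℤ) (hn : 1 ≤ n) :
    ∃ y : ℤ, |y - x| ≤ 1 ∧ |x - y| ≤ n ∧ Even (n + (x - y)) ∧ Even (n + (y - x)) := by
  rcases Int.even_or_odd n with h | h
  · refine ⟨x, by simp, ?_, ?_, ?_⟩
    · simp; omega
    · simpa using h
    · simpa using h
  · refine ⟨x + 1, by simp, ?_, ?_, ?_⟩
    · rw [show x - (x + 1) = -1 by ring]
      simpa using hn
    · rw [show x - (x + 1) = -1 by ring]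
      exact h.add_odd (by decide)
    · rw [show x + 1 - x = 1 by ring]
      exact h.add_odd (by decide)

/-- the event of the interior lower bound -/
def IE (q : ℝ) (φ : Env → Env) (K0 V : ℝ) (j i L : ℕ) (s₀ : ℤ) : Set Env :=
  {ω | ∃ u v : Site, s₀ ≤ u.1 ∧ u.1 < v.1 ∧ v.1 ≤ s₀ + L ∧ Reach u v ∧
      |dx u v| ≤ 2 ∧ |(u.2 : ℝ)| ≤ V ∧ |(v.2 : ℝ)| ≤ V ∧
      T (φ ω) u v < mu q * dt u v - al K0 j i (min |(u.2 : ℝ)| |(v.2 : ℝ)|)}

/-- the event of the crossing lower bound -/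
def LE (q : ℝ) (φ : Env → Env) (K0 V : ℝ) (Xc : ℤ) (j i L : ℕ) (s₀ : ℤ) : Set Env :=
  {ω | ∃ x y : ℤ, |(x : ℝ)| ≤ V ∧ |(y : ℝ)| ≤ V ∧ |x - y| ≤ 16 * Xc * 16 ^ i ∧
      Reach (s₀, x) (s₀ + L, y) ∧ T (φ ω) (s₀, x) (s₀ + L, y) <
        par q (s₀, x) (s₀ + L, y) - al K0 j i (max |(x : ℝ)| |(y : ℝ)|)}

lemma abs_next {x y : ℤ} (h : |y - x| ≤ 1) : |(y : ℝ)| ≤ |(x : ℝ)| + 1 := by
  have h1 : |((y - x : ℤ) : ℝ)| ≤ 1 := by
    rw [← Int.cast_abs]
    exact_mod_cast h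
  push_cast at h1
  have := abs_sub_abs_le_abs_sub (y : ℝ) (x : ℝ)
  linarith

/-- interior violation from below -/
lemma ie_down {q K0 V : ℝ} (hK0 : 0 ≤ K0) {j a : ℕ} (ha : 1 ≤ a) {φ : Env → Env} {ω : Env}
    {u : Site} (h1 : -lv a ≤ u.1) (h2 : u.1 ≤ lv a) (hV : |(u.2 : ℝ)| ≤ V)
    (h : ∀ y, |y - u.2| ≤ 1 → Reach (-lv a, y) u →
      T (φ ω) (-lv a, y) u < mu q * ((u.1 + lv a : ℤ) : ℝ) - al K0 j a |(u.2 : ℝ)|) :
    ω ∈ IE q φ K0 (V + 1) j a (64 ^ a) (-lv a) := by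
  rcases eq_or_lt_of_le h1 with h3 | h3
  · exfalso
    have h4 := h u.2 (by simp) (by rw [h3]; exact reach_refl u)
    rw [h3] at h4
    have h5 : T (φ ω) (u.1, u.2) u = 0 := T_self _ _
    rw [h5] at h4
    have h6 := al_nonneg hK0 j a (abs_nonneg (u.2 : ℝ))
    have h7 : u.1 + lv a = 0 := by omega
    rw [h7] at h4
    simp only [Int.cast_zero, mul_zero] at h4
    linarith
  · obtain ⟨y, hy1, hy2, hy3, -⟩ := exists_parity (u.1 + lv a) u.2 (by omega)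
    have hR : Reach (-lv a, y) u := by
      refine ⟨?_, ?_⟩
      · show |u.2 - y| ≤ u.1 - -lv a
        rw [sub_neg_eq_add]; exact hy2
      · show Even (u.1 - -lv a + (u.2 - y))
        rw [sub_neg_eq_add]; exact hy3
    refine ⟨(-lv a, y), u, le_rfl, h3, ?_, hR, ?_, ?_, ?_, ?_⟩
    · rw [core_len a ha]; exact h2
    · show |((u.2 - y : ℤ) : ℝ)| ≤ 2
      rw [← Int.cast_abs]
      have : |u.2 - y| ≤ 2 := by rw [abs_sub_comm]; omega
      exact_mod_cast this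
    · exact (abs_next hy1).trans (by linarith)
    · linarith
    · have e : dt (-lv a, y) u = ((u.1 + lv a : ℤ) : ℝ) := by
        unfold dt
        show ((u.1 - -lv a : ℤ) : ℝ) = _
        rw [sub_neg_eq_add]
      rw [e]
      refine lt_of_lt_of_le (h y hy1 hR) ?_
      have := al_mono hK0 j a (min_le_right |((((-lv a, y) : Site).2 : ℤ) : ℝ)| |(u.2 : ℝ)|)
      linarith

/-- interior violation from above -/
lemma ie_up {q K0 V : ℝ} (hK0 : 0 ≤ K0) {j a : ℕ} (ha : 1 ≤ a) {φ : Env → Env} {ω : Env}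
    {u : Site} (h1 : -lv a ≤ u.1) (h2 : u.1 ≤ lv a) (hV : |(u.2 : ℝ)| ≤ V)
    (h : ∀ y, |y - u.2| ≤ 1 → Reach u (lv a, y) →
      T (φ ω) u (lv a, y) < mu q * ((lv a - u.1 : ℤ) : ℝ) - al K0 j a |(u.2 : ℝ)|) :
    ω ∈ IE q φ K0 (V + 1) j a (64 ^ a) (-lv a) := by
  rcases eq_or_lt_of_le h2 with h3 | h3
  · exfalso
    have h4 := h u.2 (by simp) (by rw [← h3]; exact reach_refl u)
    rw [← h3] at h4
    have h5 : T (φ ω) u (u.1, u.2) = 0 := T_self _ _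
    rw [h5] at h4
    have h6 := al_nonneg hK0 j a (abs_nonneg (u.2 : ℝ))
    have h7 : u.1 - u.1 = 0 := by omega
    rw [h7] at h4
    simp only [Int.cast_zero, mul_zero] at h4
    linarith
  · obtain ⟨y, hy1, hy2, -, hy3⟩ := exists_parity (lv a - u.1) u.2 (by omega)
    have hR : Reach u (lv a, y) := by
      refine ⟨?_, ?_⟩
      · show |y - u.2| ≤ lv a - u.1
        rw [abs_sub_comm]; exact hy2
      · exact hy3
    refine ⟨u, (lv a, y), h1, h3, ?_, hR, ?_, ?_, ?_, ?_⟩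
    · rw [core_len a ha]
    · show |((y - u.2 : ℤ) : ℝ)| ≤ 2
      rw [← Int.cast_abs]
      have : |y - u.2| ≤ 2 := by omega
      exact_mod_cast this
    · linarith
    · exact (abs_next hy1).trans (by linarith)
    · have e : dt u (lv a, y) = ((lv a - u.1 : ℤ) : ℝ) := rfl
      rw [e]
      refine lt_of_lt_of_le (h y hy1 hR) ?_
      have := al_mono hK0 j a (min_le_left |(u.2 : ℝ)| |((((lv a, y) : Site).2 : ℤ) : ℝ)|)
      linarith

/-- union of finitely many events -/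
lemma union8 {q : ℝ} {S A B C D E F G H : Set Env} {t : ℝ≥0∞}
    (hS : S ⊆ A ∪ B ∪ C ∪ D ∪ E ∪ F ∪ G ∪ H) (hA : PE q A ≤ t) (hB : PE q B ≤ t) (hC : PE q C ≤ t)
    (hD : PE q D ≤ t) (hE : PE q E ≤ t) (hF : PE q F ≤ t) (hG : PE q G ≤ t) (hH : PE q H ≤ t) :
    PE q S ≤ 8 * t := by
  calc PE q S ≤ PE q (A ∪ B ∪ C ∪ D ∪ E ∪ F ∪ G ∪ H) := measure_mono hS
    _ ≤ PE q A + PE q B + PE q C + PE q D + PE q E + PE q F + PE q G + PE q H := by
        refine (measure_union_le _ _).trans (add_le_add_left ?_ _)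
        refine (measure_union_le _ _).trans (add_le_add_left ?_ _)
        refine (measure_union_le _ _).trans (add_le_add_left ?_ _)
        refine (measure_union_le _ _).trans (add_le_add_left ?_ _)
        refine (measure_union_le _ _).trans (add_le_add_left ?_ _)
        refine (measure_union_le _ _).trans (add_le_add_left ?_ _)
        exact measure_union_le _ _
    _ ≤ t + t + t + t + t + t + t + t := by gcongr
    _ = 8 * t := by ring

lemma eight_tl {C c s Y : ℝ} : 8 * tl C c s Y = tl (8 * C) c s Y := by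
  unfold tl
  rw [show (8 : ℝ≥0∞) = ENNReal.ofReal 8 by norm_num, ← ENNReal.ofReal_mul (by norm_num)]
  congr 1
  ring

end PNV

open PNV

theorem pf_PNM (h1 : T_UPP) (h2 : T_LOW) (h3 : T_INT) (h4 : T_SMF) : T_PNM := by
  intro hBA hBL hBLI q hq0 hq1
  obtain ⟨C1, c1, hC1, hc1, hU⟩ := h1 hBA q hq0 hq1
  obtain ⟨Cl, cl, hCl, hcl, hL⟩ := hBL q hq0 hq1
  obtain ⟨Ci, ci, hCi, hci, hI⟩ := hBLI q hq0 hq1
  obtain ⟨C2, c2, hC2, hc2, hLow⟩ := h2 Cl cl (3 / 2) hCl hcl (by norm_num)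
  obtain ⟨C3, c3, hC3, hc3, hInt⟩ := h3 Ci ci (3 / 2) hCi hci (by norm_num)
  have hCLow : ∀ (L : ℕ) (Bd : ℝ), 1 ≤ L → CLow q Cl cl (3 / 2) (fun ω => ω) L Bd := by
    intro L Bd hL1 b E Y _ _ hE hY
    have := hL L hL1 b E hE Y hY
    unfold tl
    rw [← ofReal_measureReal, ← neg_mul]
    exact ENNReal.ofReal_le_ofReal this
  have hILow : ∀ (L : ℕ) (Bd : ℝ), 1 ≤ L → ILow q Ci ci (3 / 2) (fun ω => ω) L Bd := by
    intro L Bd hL1 b Y _ hY
    have := hI L hL1 b Y hY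
    unfold tl
    rw [← ofReal_measureReal, ← neg_mul]
    refine ENNReal.ofReal_le_ofReal (le_trans (measureReal_mono ?_) this)
    rintro ω ⟨u, v, g1, g2, g3, g4, g5, g6, g7⟩
    refine ⟨u, v, 0, g1, g2, g3, g4, ?_, ?_, g6, ?_⟩
    · rw [abs_zero]
      unfold XL
      positivity
    · rw [zero_mul, sub_zero]; exact g5
    · rw [abs_zero]
      refine g7.trans (le_of_eq ?_)
      ring
  refine ⟨8 * max C1 (max C2 C3), min c1 (min c2 c3), 1, by positivity, by positivity, one_pos, ?_⟩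
  intro K0 Xc a j i hK0 hXc hSml ha hai haj
  have hi1 : 1 ≤ i := ha.trans hai
  have hSi : Sml Xc i := (h4 Xc 0 a i hXc le_rfl (by omega) hSml hai).1
  set Y := str K0 (ds j i) with hY
  have hY1 : 1 ≤ Y := str_one hK0 _
  have hK0' : 0 ≤ K0 := by linarith
  obtain ⟨L, hL1, hL2, hL3, hL4⟩ := slab_len i hi1
  have hL0 : 1 ≤ L := le_trans (Nat.one_le_pow _ _ (by norm_num)) hL1
  have ht1 : tl C1 c1 1 Y ≤ tl (max C1 (max C2 C3)) (min c1 (min c2 c3)) 1 Y :=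
    tl_mono (le_max_left _ _) hC1.le (min_le_left _ _) (by positivity) le_rfl hY1
  have ht2 : tl C2 c2 (3 / 2) Y ≤ tl (max C1 (max C2 C3)) (min c1 (min c2 c3)) 1 Y :=
    tl_mono ((le_max_left _ _).trans (le_max_right _ _)) hC2.le
      ((min_le_right _ _).trans (min_le_left _ _)) (by positivity) (by norm_num) hY1
  have ht3 : tl C3 c3 (3 / 2) Y ≤ tl (max C1 (max C2 C3)) (min c1 (min c2 c3)) 1 Y :=
    tl_mono ((le_max_right _ _).trans (le_max_right _ _)) hC3.le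
      ((min_le_right _ _).trans (min_le_right _ _)) (by positivity) (by norm_num) hY1
  set V : ℝ := Xc * 16 ^ max j i with hV
  have hlow : ∀ s₀ : ℤ, PE q (LE q (fun ω => ω) K0 V Xc j i L s₀) ≤ tl C2 c2 (3 / 2) Y := fun s₀ =>
    hLow q (fun ω => ω) K0 V (V + 2 * 16 ^ i) Xc j i L s₀ hK0 hXc hSi hL1 hL2 le_rfl
      (hCLow L _ hL0)
  have hLLV : ∀ (s₀ t₀ : ℤ), s₀ + (L : ℤ) = t₀ → ∀ ω, ¬ LL (fwd ω) q K0 Xc j i s₀ t₀ →
      ω ∈ LE q (fun ω => ω) K0 V Xc j i L s₀ := by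
    rintro s₀ t₀ rfl ω hω
    unfold LL at hω
    push Not at hω
    obtain ⟨x, y, g1, g2, g3, g4, g5⟩ := hω
    refine ⟨x, y, ?_, ?_, g3, g4, g5⟩
    · rw [hV, ← Int.cast_abs]; exact_mod_cast g1
    · rw [hV, ← Int.cast_abs]; exact_mod_cast g2
  by_cases hia : i = a
  · subst hia
    have h64 : 1 ≤ 64 ^ i := Nat.one_le_pow _ _ (by norm_num)
    have hcore := core_len i ha
    have hlowc : PE q (LE q (fun ω => ω) K0 V Xc j i (64 ^ i) (-lv i)) ≤ tl C2 c2 (3 / 2) Y :=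
      hLow q (fun ω => ω) K0 V (V + 2 * 16 ^ i) Xc j i (64 ^ i) (-lv i) hK0 hXc hSi le_rfl
        (by omega) le_rfl (hCLow _ _ h64)
    have hic : PE q (IE q (fun ω => ω) K0 (V + 1) j i (64 ^ i) (-lv i)) ≤ tl C3 c3 (3 / 2) Y :=
      hInt q (fun ω => ω) K0 (V + 1) (V + 1 + 2 * 16 ^ i) j i (64 ^ i) (-lv i) hK0 le_rfl
        (by omega) le_rfl (hILow _ _ h64)
    have hup1 := hU K0 j i L (-lv (i + 1)) hK0 hL1 hL2
    have hup2 := hU K0 j i L (lv i) hK0 hL1 hL2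
    have hup3 := hU K0 j i (64 ^ i) (-lv i) hK0 le_rfl (by omega)
    rw [hL4] at hup1
    rw [hL3] at hup2
    rw [hcore] at hup3
    have hsub : {ω | ¬ Nm q K0 Xc i j i ω} ⊆
        {ω | ¬ UL (fwd ω) q K0 j i (-lv (i + 1)) (-lv i)} ∪
        {ω | ¬ UL (fwd ω) q K0 j i (lv i) (lv (i + 1))} ∪
        {ω | ¬ UL (fwd ω) q K0 j i (-lv i) (lv i)} ∪
        LE q (fun ω => ω) K0 V Xc j i L (-lv (i + 1)) ∪
        LE q (fun ω => ω) K0 V Xc j i L (lv i) ∪
        LE q (fun ω => ω) K0 V Xc j i (64 ^ i) (-lv i) ∪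
        IE q (fun ω => ω) K0 (V + 1) j i (64 ^ i) (-lv i) ∪
        IE q (fun ω => ω) K0 (V + 1) j i (64 ^ i) (-lv i) := by
      intro ω hω
      by_contra hcon
      simp only [Set.mem_union, Set.mem_ofPred_eq, not_or, not_not] at hcon
      obtain ⟨⟨⟨⟨⟨⟨⟨k1, k2⟩, k3⟩, k4⟩, k5⟩, k6⟩, k7⟩, -⟩ := hcon
      apply hω
      refine ⟨k1, k2, ?_, ?_, fun _ => k3, fun _ => ?_, fun _ => ?_, fun _ => ?_⟩
      · by_contra h
        exact k4 (hLLV _ _ hL4 ω h)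
      · by_contra h
        exact k5 (hLLV _ _ hL3 ω h)
      · by_contra h
        apply k6
        unfold LL at h
        push Not at h
        obtain ⟨x, y, g1, g2, g3, g4, g5⟩ := h
        have g4' : Reach (-lv i, x) (-lv i + ((64 ^ i : ℕ) : ℤ), y) := by rw [hcore]; exact g4
        have g5' : T ω (-lv i, x) (-lv i + ((64 ^ i : ℕ) : ℤ), y) <
            par q (-lv i, x) (-lv i + ((64 ^ i : ℕ) : ℤ), y) -
              al K0 j i (max |(x : ℝ)| |(y : ℝ)|) := by rw [hcore]; exact g5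
        refine ⟨x, y, ?_, ?_, g3, g4', g5'⟩
        · rw [hV, ← Int.cast_abs]; exact_mod_cast g1
        · rw [hV, ← Int.cast_abs]; exact_mod_cast g2
      · intro u g1 g2 g3
        by_contra h
        push Not at h
        apply k7
        refine ie_down hK0' ha g1 g2 ?_ h
        rw [hV, ← Int.cast_abs]; exact_mod_cast g3
      · intro u g1 g2 g3
        by_contra h
        push Not at h
        apply k7
        refine ie_up (u := rev u) hK0' ha ?_ ?_ ?_ ?_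
        · show -lv i ≤ -u.1
          omega
        · show -u.1 ≤ lv i
          omega
        · show |(u.2 : ℝ)| ≤ V
          rw [hV, ← Int.cast_abs]; exact_mod_cast g3
        · intro y hy hR
          have hR' : Reach (-lv i, y) u := by
            have := reach_rev.2 hR
            rw [rev_rev] at this
            exact this
          have h5 := h y hy hR'
          have e : (bwd ω).TT (-lv i, y) u = T ω (rev u) (lv i, y) := by
            show T ω (rev u) (rev (-lv i, y)) = _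
            unfold rev
            simp only [neg_neg]
          rw [e] at h5
          have e2 : lv i - (rev u).1 = u.1 + lv i := by
            unfold rev
            simp only
            ring
          rw [e2]
          exact h5
    rw [← eight_tl]
    exact union8 hsub (hup1.trans ht1) (hup2.trans ht1) (hup3.trans ht1) ((hlow _).trans ht2)
      ((hlow _).trans ht2) (hlowc.trans ht2) (hic.trans ht3) (hic.trans ht3)
  · have hup1 := hU K0 j i L (-lv (i + 1)) hK0 hL1 hL2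
    have hup2 := hU K0 j i L (lv i) hK0 hL1 hL2
    rw [hL4] at hup1
    rw [hL3] at hup2
    have hsub : {ω | ¬ Nm q K0 Xc a j i ω} ⊆
        {ω | ¬ UL (fwd ω) q K0 j i (-lv (i + 1)) (-lv i)} ∪
        {ω | ¬ UL (fwd ω) q K0 j i (lv i) (lv (i + 1))} ∪ ∅ ∪
        LE q (fun ω => ω) K0 V Xc j i L (-lv (i + 1)) ∪
        LE q (fun ω => ω) K0 V Xc j i L (lv i) ∪ ∅ ∪ ∅ ∪ ∅ := by
      intro ω hω
      by_contra hcon
      simp only [Set.mem_union, Set.mem_ofPred_eq, not_or, not_not] at hcon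
      obtain ⟨⟨⟨⟨⟨⟨⟨k1, k2⟩, -⟩, k4⟩, k5⟩, -⟩, -⟩, -⟩ := hcon
      apply hω
      refine ⟨k1, k2, ?_, ?_, fun h => absurd h hia, fun h => absurd h hia,
        fun h => absurd h hia, fun h => absurd h hia⟩
      · by_contra h
        exact k4 (hLLV _ _ hL4 ω h)
      · by_contra h
        exact k5 (hLLV _ _ hL3 ω h)
    rw [← eight_tl]
    have h0 : PE q (∅ : Set Env) ≤ tl (max C1 (max C2 C3)) (min c1 (min c2 c3)) 1 Y := by
      rw [measure_empty]; exact zero_le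
    exact union8 hsub (hup1.trans ht1) (hup2.trans ht1) h0 ((hlow _).trans ht2)
      ((hlow _).trans ht2) h0 h0 h0

/-- the crossing slab fits in the tube -/
lemma tube_fit {A : ℤ} {i k L : ℕ} (hA : 200 ≤ A) (hik : i < k) (hL : L ≤ 32 * 64 ^ i) :
    240 * (L : ℝ) ^ ((2 : ℝ) / 3) ≤ ((A * 16 ^ k : ℤ) : ℝ) := by
  have h1 : (L : ℝ) ≤ 32 * 64 ^ i := by exact_mod_cast hL
  have h2 : (L : ℝ) ^ ((2 : ℝ) / 3) ≤ 13 * 16 ^ i := by
    have e1 : (L : ℝ) ^ ((2 : ℝ) / 3) = ((L : ℝ) ^ 2) ^ ((1 : ℝ) / 3) := by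
      rw [← Real.rpow_natCast, ← Real.rpow_mul (Nat.cast_nonneg L)]
      norm_num
    have e3 : ∀ x : ℝ, 0 ≤ x → x = (x ^ 3) ^ ((1 : ℝ) / 3) := by
      intro x hx
      rw [← Real.rpow_natCast, ← Real.rpow_mul hx]
      norm_num
    have e2 := e3 (13 * 16 ^ i : ℝ) (by positivity)
    rw [e1, e2]
    apply Real.rpow_le_rpow (by positivity) _ (by norm_num)
    have h3 : (L : ℝ) ^ 2 ≤ (32 * 64 ^ i) ^ 2 := pow_le_pow_left₀ (Nat.cast_nonneg L) h1 2
    have h4 : (32 * (64 : ℝ) ^ i) ^ 2 = 1024 * 4096 ^ i := by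
      rw [mul_pow, ← pow_mul, mul_comm i 2, pow_mul]; norm_num
    have h5 : (13 * (16 : ℝ) ^ i) ^ 3 = 2197 * 4096 ^ i := by
      rw [mul_pow, ← pow_mul, mul_comm i 3, pow_mul]; norm_num
    rw [h5]
    rw [h4] at h3
    have h6 : (0 : ℝ) < 4096 ^ i := by positivity
    linarith
  have h3 : (16 : ℝ) * 16 ^ i ≤ 16 ^ k := by
    rw [← pow_succ']
    exact pow_le_pow_right₀ (by norm_num) hik
  have h4 : (200 : ℝ) ≤ A := by exact_mod_cast hA
  push_cast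
  have h5 : (0 : ℝ) < 16 ^ k := by positivity
  nlinarith

theorem pf_PVV (h1 : T_UPP) (h2 : T_LOW) (h3 : T_INT) (h4 : T_SMF) : T_PVV := by
  intro hBA q hq0 hq1 hTL hTI
  obtain ⟨C1, c1, hC1, hc1, hU⟩ := h1 hBA q hq0 hq1
  obtain ⟨Cl, cl, sl, hCl, hcl, hsl, hL⟩ := hTL
  obtain ⟨Ci, ci, si, hCi, hci, hsi, hI⟩ := hTI
  obtain ⟨C2, c2, hC2, hc2, hLow⟩ := h2 Cl cl sl hCl hcl hsl
  obtain ⟨C3, c3, hC3, hc3, hInt⟩ := h3 Ci ci si hCi hci hsi
  refine ⟨8 * max C1 (max C2 C3), min c1 (min c2 c3), min 1 (min sl si), by positivity,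
    by positivity, by positivity, ?_⟩
  intro K0 Xc A a j i k hK0 hA hAX hSml ha haj hjk hai hik
  have hXc : 16 ≤ Xc := by omega
  have hi1 : 1 ≤ i := ha.trans hai
  have hSi : Sml Xc i := (h4 Xc 0 a i hXc le_rfl (by omega) hSml hai).1
  set Y := str K0 (ds j i) with hY
  have hY1 : 1 ≤ Y := str_one hK0 _
  have hK0' : 0 ≤ K0 := by linarith
  obtain ⟨L, hL1, hL2, hL3, hL4⟩ := slab_len i hi1
  have hL0 : 1 ≤ L := le_trans (Nat.one_le_pow _ _ (by norm_num)) hL1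
  set t : ℝ≥0∞ := tl (max C1 (max C2 C3)) (min c1 (min c2 c3)) (min 1 (min sl si)) Y with ht
  have ht1 : tl C1 c1 1 Y ≤ t :=
    tl_mono (le_max_left _ _) hC1.le (min_le_left _ _) (by positivity) (min_le_left _ _) hY1
  have ht2 : tl C2 c2 sl Y ≤ t :=
    tl_mono ((le_max_left _ _).trans (le_max_right _ _)) hC2.le
      ((min_le_right _ _).trans (min_le_left _ _)) (by positivity)
      ((min_le_right _ _).trans (min_le_left _ _)) hY1
  have ht3 : tl C3 c3 si Y ≤ t :=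
    tl_mono ((le_max_right _ _).trans (le_max_right _ _)) hC3.le
      ((min_le_right _ _).trans (min_le_right _ _)) (by positivity)
      ((min_le_right _ _).trans (min_le_right _ _)) hY1
  set R : ℤ := A * 16 ^ k with hR
  have hRr : (R : ℝ) = A * 16 ^ k := by rw [hR]; push_cast; rfl
  have h16k : (1 : ℝ) ≤ 16 ^ k := one_le_pow₀ (by norm_num)
  have h16i : (16 : ℝ) * 16 ^ i ≤ 16 ^ k := by
    rw [← pow_succ']
    exact pow_le_pow_right₀ (by norm_num) hik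
  have hAr : (200 : ℝ) ≤ A := by exact_mod_cast hA
  have hBd : (16 : ℝ) ^ k + 1 + 2 * 16 ^ i ≤ (R : ℝ) / 80 := by
    rw [hRr]
    have : (200 : ℝ) * 16 ^ k ≤ A * 16 ^ k := mul_le_mul_of_nonneg_right hAr (by positivity)
    linarith
  have hVr : ∀ x : ℤ, |x| < 16 ^ k → |(x : ℝ)| ≤ 16 ^ k := by
    intro x hx
    have : ((|x| : ℤ) : ℝ) < ((16 ^ k : ℤ) : ℝ) := Int.cast_lt.2 hx
    push_cast at this
    exact this.le
  have hcut : ∀ ω s t g, wt (cutE R ω) s t g ≤ wt ω s t g := by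
    intro ω s t g
    unfold wt
    apply Finset.sum_le_sum
    intro r _
    unfold cutE
    split_ifs
    · exact le_rfl
    · simp
  have hVU : ∀ (m : ℕ) (s₀ t₀ : ℤ) (ω : Env), VU q K0 R (16 ^ k) j m s₀ t₀ ω →
      ¬ UL (fwd ω) q K0 j m s₀ t₀ := by
    rintro m s₀ t₀ ω ⟨s', t', g, g1, g2, g3, g4, -, -, g7⟩ hUL
    have := hUL s' t' g g1 g2 g3 g4
    have h5 : (fwd ω).W s' t' g = wt ω s' t' g := rfl
    rw [h5] at this
    have h6 := hcut ω s' t' g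
    linarith
  have hlow : ∀ (L : ℕ) (s₀ : ℤ), 64 ^ i ≤ L → L ≤ 32 * 64 ^ i →
      PE q (LE q (cutE R) K0 (16 ^ k) Xc j i L s₀) ≤ tl C2 c2 sl Y := by
    intro L s₀ hL1 hL2
    refine hLow q (cutE R) K0 (16 ^ k) (R / 80) Xc j i L s₀ hK0 hXc hSi hL1 hL2 (by linarith) ?_
    exact hL L R (le_trans (Nat.one_le_pow _ _ (by norm_num)) hL1) (tube_fit hA hik hL2)
  have hVL : ∀ (L : ℕ) (s₀ t₀ : ℤ), s₀ + (L : ℤ) = t₀ → ∀ ω,
      VL q K0 Xc R (16 ^ k) j i s₀ t₀ ω → ω ∈ LE q (cutE R) K0 (16 ^ k) Xc j i L s₀ := by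
    rintro L s₀ t₀ rfl ω ⟨x, y, g1, g2, g3, g4, g5⟩
    exact ⟨x, y, hVr x g1, hVr y g2, g3, g4, g5⟩
  have hup1 := hU K0 j i L (-lv (i + 1)) hK0 hL1 hL2
  have hup2 := hU K0 j i L (lv i) hK0 hL1 hL2
  rw [hL4] at hup1
  rw [hL3] at hup2
  by_cases hia : i = a
  · subst hia
    have h64 : 1 ≤ 64 ^ i := Nat.one_le_pow _ _ (by norm_num)
    have hcore := core_len i ha
    have hic : PE q (IE q (cutE R) K0 (16 ^ k + 1) j i (64 ^ i) (-lv i)) ≤ tl C3 c3 si Y :=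
      hInt q (cutE R) K0 (16 ^ k + 1) (R / 80) j i (64 ^ i) (-lv i) hK0 le_rfl
        (by omega) hBd (hI _ R h64 (tube_fit hA hik (by omega)))
    have hup3 := hU K0 j i (64 ^ i) (-lv i) hK0 le_rfl (by omega)
    rw [hcore] at hup3
    have hsub : {ω | VV q K0 Xc R (16 ^ k) i j i ω} ⊆
        {ω | ¬ UL (fwd ω) q K0 j i (-lv (i + 1)) (-lv i)} ∪
        {ω | ¬ UL (fwd ω) q K0 j i (lv i) (lv (i + 1))} ∪
        {ω | ¬ UL (fwd ω) q K0 j i (-lv i) (lv i)} ∪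
        LE q (cutE R) K0 (16 ^ k) Xc j i L (-lv (i + 1)) ∪
        LE q (cutE R) K0 (16 ^ k) Xc j i L (lv i) ∪
        LE q (cutE R) K0 (16 ^ k) Xc j i (64 ^ i) (-lv i) ∪
        IE q (cutE R) K0 (16 ^ k + 1) j i (64 ^ i) (-lv i) ∪
        IE q (cutE R) K0 (16 ^ k + 1) j i (64 ^ i) (-lv i) := by
      intro ω hω
      rcases hω with h | h | h | h | ⟨-, h | h | ⟨u, g1, g2, g3, h | h⟩⟩
      · exact Or.inl (Or.inl (Or.inl (Or.inl (Or.inl (Or.inl (Or.inl (hVU _ _ _ ω h)))))))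
      · exact Or.inl (Or.inl (Or.inl (Or.inl (Or.inl (Or.inl (Or.inr (hVU _ _ _ ω h)))))))
      · exact Or.inl (Or.inl (Or.inl (Or.inl (Or.inr (hVL L _ _ hL4 ω h)))))
      · exact Or.inl (Or.inl (Or.inl (Or.inr (hVL L _ _ hL3 ω h))))
      · exact Or.inl (Or.inl (Or.inl (Or.inl (Or.inl (Or.inr (hVU _ _ _ ω h))))))
      · exact Or.inl (Or.inl (Or.inr (hVL _ _ _ hcore ω h)))
      · exact Or.inl (Or.inr (ie_down hK0' ha g1 g2 (hVr _ g3) h))
      · exact Or.inr (ie_up hK0' ha g1 g2 (hVr _ g3) h)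
    rw [← eight_tl]
    exact union8 hsub (hup1.trans ht1) (hup2.trans ht1) (hup3.trans ht1)
      ((hlow _ _ hL1 hL2).trans ht2) ((hlow _ _ hL1 hL2).trans ht2)
      ((hlow _ _ le_rfl (by omega)).trans ht2) (hic.trans ht3) (hic.trans ht3)
  · have hsub : {ω | VV q K0 Xc R (16 ^ k) a j i ω} ⊆
        {ω | ¬ UL (fwd ω) q K0 j i (-lv (i + 1)) (-lv i)} ∪
        {ω | ¬ UL (fwd ω) q K0 j i (lv i) (lv (i + 1))} ∪ ∅ ∪
        LE q (cutE R) K0 (16 ^ k) Xc j i L (-lv (i + 1)) ∪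
        LE q (cutE R) K0 (16 ^ k) Xc j i L (lv i) ∪ ∅ ∪ ∅ ∪ ∅ := by
      intro ω hω
      rcases hω with h | h | h | h | ⟨h, -⟩
      · exact Or.inl (Or.inl (Or.inl (Or.inl (Or.inl (Or.inl (Or.inl (hVU _ _ _ ω h)))))))
      · exact Or.inl (Or.inl (Or.inl (Or.inl (Or.inl (Or.inl (Or.inr (hVU _ _ _ ω h)))))))
      · exact Or.inl (Or.inl (Or.inl (Or.inl (Or.inr (hVL L _ _ hL4 ω h)))))
      · exact Or.inl (Or.inl (Or.inl (Or.inr (hVL L _ _ hL3 ω h))))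
      · exact absurd h hia
    rw [← eight_tl]
    have h0 : PE q (∅ : Set Env) ≤ t := by
      rw [measure_empty]; exact zero_le
    exact union8 hsub (hup1.trans ht1) (hup2.trans ht1) h0 ((hlow _ _ hL1 hL2).trans ht2)
      ((hlow _ _ hL1 hL2).trans ht2) h0 h0 h0

end Pool.Agent.H14.PD
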